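import Pool.Agent.H917R2.BP.Stm

/-!
Task `rnm` of project BP (helper917), author helper234: Radon-Nikodym theorem for matrices over a
von Neumann algebra with weights.
-/

set_option autoImplicit false

open scoped ComplexOrder InnerProductSpace ComplexConjugate Topology
open Filter

noncomputable section

namespace Pool.Agent.H234R3.BP

open H917R2.BP H759R2.Kad H710R2.DP H917R2.Tr

section

variable {H : Type} [NormedAddCommGroup H] [InnerProductSpace ℂ H]
variable {ι : Type} [Fintype ι] [DecidableEq ι]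

theorem rnm_entry (T : ι → ι → BH H) (i j : ι) (u : H) : opMat T (inj j u) i = T i j u := by
  rw [opMat_apply, Finset.sum_eq_single j]
  · simp [inj_apply]
  · intro b _ hb
    simp [inj_apply, hb]
  · simp

theorem rnm_inner_inj (a : ι) (u : H) (v : HH ι H) : ⟪inj a u, v⟫_ℂ = ⟪u, v a⟫_ℂ := by
  rw [PiLp.inner_apply, Finset.sum_eq_single a]
  · simp [inj_apply]
  · intro b _ hb
    simp [inj_apply, hb]
  · simp

/-- the functional -/
def rnmF {k n : ℕ} (c : Fin k → Fin k → BH H) (ξ : H) :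
    BH (HH (Fin n × Fin k) H) →ₗ[ℂ] ℂ where
  toFun X := ∑ a, ∑ b, ⟪c a.2 b.2 ξ, X (inj b ξ) a⟫_ℂ
  map_add' X Y := by
    rw [← Finset.sum_add_distrib]
    refine Finset.sum_congr rfl fun a _ => ?_
    rw [← Finset.sum_add_distrib]
    refine Finset.sum_congr rfl fun b _ => ?_
    rw [_root_.add_apply, PiLp.add_apply, inner_add_right]
  map_smul' r X := by
    rw [RingHom.id_apply, smul_eq_mul, Finset.mul_sum]
    refine Finset.sum_congr rfl fun a _ => ?_
    rw [Finset.mul_sum]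
    refine Finset.sum_congr rfl fun b _ => ?_
    rw [_root_.smul_apply, PiLp.smul_apply, inner_smul_right]

theorem rnmF_apply {k n : ℕ} (c : Fin k → Fin k → BH H) (ξ : H)
    (X : BH (HH (Fin n × Fin k) H)) :
    rnmF c ξ X = ∑ a, ∑ b, ⟪c a.2 b.2 ξ, X (inj b ξ) a⟫_ℂ := rfl

end

section

variable {H : Type} [NormedAddCommGroup H] [InnerProductSpace ℂ H] [CompleteSpace H]

theorem rnm_quad {k : ℕ} (c : Fin k → Fin k → BH H) (hc : PosM (fun p q => c q p))
    (z : Fin k → H) : 0 ≤ ∑ p, ∑ q, ⟪c p q (z p), z q⟫_ℂ := by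
  have hadj : ∀ p q u v, ⟪c p q u, v⟫_ℂ = ⟪u, c q p v⟫_ℂ := by
    intro p q u v
    have h1 : star (c p q) = c q p := hc.1 q p
    rw [← h1, ContinuousLinearMap.star_eq_adjoint, ContinuousLinearMap.adjoint_inner_right]
  have e1 : ∑ p, ∑ q, ⟪c p q (z p), z q⟫_ℂ = ∑ p, ∑ q, ⟪z p, c q p (z q)⟫_ℂ :=
    Finset.sum_congr rfl fun p _ => Finset.sum_congr rfl fun q _ => hadj p q _ _
  have hre : 0 ≤ (∑ p, ∑ q, ⟪c p q (z p), z q⟫_ℂ).re := by
    rw [e1]; exact hc.2 z
  have him : conj (∑ p, ∑ q, ⟪c p q (z p), z q⟫_ℂ) = ∑ p, ∑ q, ⟪c p q (z p), z q⟫_ℂ := by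
    conv_rhs => rw [e1]
    rw [map_sum, Finset.sum_comm]
    · rw [show (∑ x, conj (∑ q, ⟪c x q (z x), z q⟫_ℂ)) = ∑ x, ∑ q, ⟪z q, c x q (z x)⟫_ℂ from
        Finset.sum_congr rfl fun x _ => by
          rw [map_sum]
          exact Finset.sum_congr rfl fun q _ => inner_conj_symm _ _]
  rw [Complex.conj_eq_iff_im] at him
  rw [Complex.le_def]
  exact ⟨hre, by rw [him]; rfl⟩

theorem rnm_bound {k : ℕ} (c : Fin k → Fin k → BH H) (z : Fin k → H) :
    (∑ p, ∑ q, ⟪c p q (z p), z q⟫_ℂ).re ≤ (∑ p, ∑ q, ‖c p q‖) * (∑ p, ‖z p‖) ^ 2 := by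
  have h0 : ∀ p, 0 ≤ ‖z p‖ := fun p => norm_nonneg _
  have hS : ∀ p, ‖z p‖ ≤ ∑ p, ‖z p‖ := fun p =>
    Finset.single_le_sum (fun i _ => h0 i) (Finset.mem_univ p)
  calc (∑ p, ∑ q, ⟪c p q (z p), z q⟫_ℂ).re ≤ ‖∑ p, ∑ q, ⟪c p q (z p), z q⟫_ℂ‖ :=
        Complex.re_le_norm _
    _ ≤ ∑ p, ∑ q, ‖c p q‖ * (∑ p, ‖z p‖) ^ 2 := by
        refine (norm_sum_le _ _).trans (Finset.sum_le_sum fun p _ => ?_)
        refine (norm_sum_le _ _).trans (Finset.sum_le_sum fun q _ => ?_)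
        calc ‖⟪c p q (z p), z q⟫_ℂ‖ ≤ ‖c p q (z p)‖ * ‖z q‖ := norm_inner_le_norm _ _
          _ ≤ (‖c p q‖ * ‖z p‖) * ‖z q‖ := by
              gcongr
              exact (c p q).le_opNorm _
          _ ≤ (‖c p q‖ * (∑ p, ‖z p‖)) * (∑ p, ‖z p‖) := by
              gcongr
              · exact hS p
              · exact hS q
          _ = _ := by ring
    _ = (∑ p, ∑ q, ‖c p q‖) * (∑ p, ‖z p‖) ^ 2 := by
        rw [Finset.sum_mul]
        exact Finset.sum_congr rfl fun p _ => (Finset.sum_mul _ _ _).symm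

/-- value of the functional on `Y* Y` -/
theorem rnm_val {k n : ℕ} (M : VonNeumannAlgebra H) (c : Fin k → Fin k → BH H) (ξ : H)
    (hcM : ∀ p q, c p q ∈ M.commutant)
    (T : (Fin n × Fin k) → (Fin n × Fin k) → BH H) (hT : ∀ i j, T i j ∈ M) :
    rnmF c ξ (star (opMat T) * opMat T) =
      ∑ r, ∑ p, ∑ q, ⟪c p q (∑ i, T r (i, p) ξ), ∑ i, T r (i, q) ξ⟫_ℂ := by
  have hcomm : ∀ p q a b (u : H), T a b (c p q u) = c p q (T a b u) := by
    intro p q a b u
    have h1 := (VonNeumannAlgebra.mem_commutant_iff.1 (hcM p q)) _ (hT a b)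
    exact DFunLike.congr_fun h1 u
  have e1 : rnmF c ξ (star (opMat T) * opMat T) =
      ∑ a, ∑ b, ∑ r, ⟪c a.2 b.2 (T r a ξ), T r b ξ⟫_ℂ := by
    rw [rnmF_apply]
    refine Finset.sum_congr rfl fun a _ => Finset.sum_congr rfl fun b _ => ?_
    have : (star (opMat T) * opMat T) (inj b ξ) a = ∑ r, star (T r a) (T r b ξ) := by
      change (star (opMat T)) (opMat T (inj b ξ)) a = _
      rw [opMat_star, opMat_apply]
      exact Finset.sum_congr rfl fun r _ => by rw [rnm_entry]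
    rw [this, inner_sum]
    refine Finset.sum_congr rfl fun r _ => ?_
    rw [ContinuousLinearMap.star_eq_adjoint, ContinuousLinearMap.adjoint_inner_right, hcomm]
  rw [e1]
  have e2 : ∑ a, ∑ b, ∑ r, ⟪c a.2 b.2 (T r a ξ), T r b ξ⟫_ℂ =
      ∑ r, ∑ a : Fin n × Fin k, ∑ b : Fin n × Fin k, ⟪c a.2 b.2 (T r a ξ), T r b ξ⟫_ℂ := by
    rw [Finset.sum_comm (s := Finset.univ (α := Fin n × Fin k)) (t := Finset.univ)
      (f := fun r a => ∑ b : Fin n × Fin k, ⟪c a.2 b.2 (T r a ξ), T r b ξ⟫_ℂ)]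
    exact Finset.sum_congr rfl fun a _ => Finset.sum_comm
  rw [e2]
  refine Finset.sum_congr rfl fun r _ => ?_
  rw [Fintype.sum_prod_type_right]
  refine Finset.sum_congr rfl fun p _ => ?_
  dsimp only
  rw [Finset.sum_comm, Fintype.sum_prod_type_right]
  refine Finset.sum_congr rfl fun q _ => ?_
  dsimp only
  rw [inner_sum]
  refine Finset.sum_congr rfl fun i _ => ?_
  rw [map_sum, sum_inner]

theorem rnm_opnorm {ι : Type} [Fintype ι] [DecidableEq ι] (T : ι → ι → BH H) (s : ℝ)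
    (hs : 0 ≤ s) (a : ι) (ξ : H) :
    ‖opMat T (((Real.sqrt s : ℝ) : ℂ) • inj a ξ)‖ ^ 2 = s * ∑ r, ‖T r a ξ‖ ^ 2 := by
  rw [map_smul, norm_smul, mul_pow, Complex.norm_real, Real.norm_eq_abs, sq_abs,
    Real.sq_sqrt hs, PiLp.norm_sq_eq_of_L2]
  congr 1
  exact Finset.sum_congr rfl fun r _ => by rw [rnm_entry]

end

theorem t_rnm (h1 : S_rn) (h2 : S_mat) : S_rnm := by
  intro H _ _ _ M ξ n k t c ht hcM hc
  obtain ⟨Mn, hMn⟩ := h2 H M (Fin n × Fin k)
  set C0 : ℝ := ∑ p, ∑ q, ‖c p q‖ with hC0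
  have hC00 : 0 ≤ C0 := Finset.sum_nonneg fun p _ => Finset.sum_nonneg fun q _ => norm_nonneg _
  set K1 : ℝ := ∑ i, 1 / t i with hK1
  have hK10 : 0 ≤ K1 := Finset.sum_nonneg fun i _ => by have := ht i; positivity
  have hK1t : ∀ i, 1 ≤ K1 * t i := by
    intro i
    have h3 : 1 / t i ≤ K1 := Finset.single_le_sum (f := fun i => 1 / t i)
      (fun i _ => by have := ht i; positivity) (Finset.mem_univ i)
    calc 1 = 1 / t i * t i := by have := (ht i).ne'; field_simp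
      _ ≤ K1 * t i := mul_le_mul_of_nonneg_right h3 (ht i).le
  set NI : ℝ := ((Finset.univ : Finset (Fin n × Fin k)).card : ℝ) with hNI
  have hNI0 : 0 ≤ NI := Nat.cast_nonneg _
  set ζ : Fin n × Fin k → HH (Fin n × Fin k) H :=
    fun a => ((Real.sqrt (t a.1) : ℝ) : ℂ) • inj a ξ with hζ
  obtain ⟨m, hm, hms, hmp, hmψ⟩ := h1 (HH (Fin n × Fin k) H) Mn (Fin n × Fin k) ζ (rnmF c ξ)
    (C0 * NI * K1) (by positivity) (by
      intro Y hY
      obtain ⟨T, hT, rfl⟩ := (hMn Y).1 hY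
      rw [rnm_val M c ξ hcM T hT]
      refine ⟨Finset.sum_nonneg fun r _ => rnm_quad c hc _, ?_⟩
      rw [Complex.re_sum]
      have e1 : ∑ a, ‖opMat T (ζ a)‖ ^ 2 = ∑ r, ∑ a, t a.1 * ‖T r a ξ‖ ^ 2 := by
        rw [Finset.sum_comm]
        refine Finset.sum_congr rfl fun a _ => ?_
        rw [hζ]
        dsimp only
        rw [rnm_opnorm T (t a.1) (ht a.1).le a ξ, Finset.mul_sum]
      rw [e1, Finset.mul_sum]
      refine Finset.sum_le_sum fun r _ => ?_
      refine (rnm_bound c _).trans ?_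
      have e2 : ∑ p, ‖∑ i, T r (i, p) ξ‖ ≤ ∑ a, ‖T r a ξ‖ := by
        rw [Fintype.sum_prod_type_right]
        exact Finset.sum_le_sum fun p _ => norm_sum_le _ _
      have e3 : (∑ a, ‖T r a ξ‖) ^ 2 ≤ NI * ∑ a, ‖T r a ξ‖ ^ 2 := sq_sum_le_card_mul_sum_sq
      have e4 : ∑ a, ‖T r a ξ‖ ^ 2 ≤ K1 * ∑ a, t a.1 * ‖T r a ξ‖ ^ 2 := by
        rw [Finset.mul_sum]
        refine Finset.sum_le_sum fun a _ => ?_
        have := mul_le_mul_of_nonneg_right (hK1t a.1) (sq_nonneg ‖T r a ξ‖)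
        linarith
      calc C0 * (∑ p, ‖∑ i, T r (i, p) ξ‖) ^ 2 ≤ C0 * (∑ a, ‖T r a ξ‖) ^ 2 := by gcongr
        _ ≤ C0 * (NI * ∑ a, ‖T r a ξ‖ ^ 2) := by gcongr
        _ ≤ C0 * (NI * (K1 * ∑ a, t a.1 * ‖T r a ξ‖ ^ 2)) := by gcongr
        _ = _ := by ring)
  obtain ⟨T, hT, rfl⟩ := (hMn m).1 hm
  have hsym : ∀ p q, star (T p q) = T q p := by
    intro p q
    ext u
    have h3 : opMat (fun i j => star (T j i)) (inj p u) q = opMat T (inj p u) q := by
      rw [← opMat_star, hms]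
    rwa [rnm_entry, rnm_entry] at h3
  refine ⟨T, hT, ⟨hsym, fun η => ?_⟩, fun a b x hx => ?_⟩
  · have h3 := (hmp (WithLp.toLp 2 η)).1
    rw [PiLp.inner_apply] at h3
    have h4 : ∑ i, ⟪(WithLp.toLp 2 η : HH (Fin n × Fin k) H) i, opMat T (WithLp.toLp 2 η) i⟫_ℂ =
        ∑ p, ∑ q, ⟪η p, T p q (η q)⟫_ℂ := by
      refine Finset.sum_congr rfl fun p _ => ?_
      rw [opMat_apply, inner_sum]
    rwa [h4] at h3
  · set X : (Fin n × Fin k) → (Fin n × Fin k) → BH H :=
      fun i j => if i = a ∧ j = b then x else 0 with hX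
    have hXM : opMat X ∈ Mn := by
      refine (hMn _).2 ⟨X, fun i j => ?_, rfl⟩
      simp only [hX]
      split_ifs
      · exact hx
      · exact zero_mem M
    have hval := hmψ (opMat X) hXM
    have e1 : rnmF c ξ (opMat X) = ⟪c a.2 b.2 ξ, x ξ⟫_ℂ := by
      rw [rnmF_apply, Finset.sum_eq_single a, Finset.sum_eq_single b]
      · rw [rnm_entry]; simp [hX]
      · intro j _ hj
        rw [rnm_entry]; simp [hX, hj]
      · simp
      · intro i _ hi
        refine Finset.sum_eq_zero fun j _ => ?_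
        rw [rnm_entry]; simp [hX, hi]
      · simp
    have hXv : ∀ w : HH (Fin n × Fin k) H, opMat X w = inj a (x (w b)) := by
      intro w
      ext i
      rw [opMat_apply, inj_apply, Finset.sum_eq_single b]
      · by_cases hi : i = a
        · simp [hX, hi]
        · simp [hX, hi]
      · intro j _ hj
        simp [hX, hj]
      · simp
    have e2 : ∑ d, ⟪ζ d, opMat T (opMat X (ζ d))⟫_ℂ = (t b.1 : ℂ) * ⟪T a b ξ, x ξ⟫_ℂ := by
      rw [Finset.sum_eq_single b]
      · rw [hXv]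
        simp only [hζ]
        rw [inner_smul_left, rnm_inner_inj, rnm_entry, PiLp.smul_apply, inj_apply, if_pos rfl,
          map_smul, map_smul, inner_smul_right, Complex.conj_ofReal, ← mul_assoc,
          ← Complex.ofReal_mul, Real.mul_self_sqrt (ht b.1).le, ← hsym a b,
          ContinuousLinearMap.star_eq_adjoint, ContinuousLinearMap.adjoint_inner_right]
      · intro d _ hd
        rw [hXv]
        simp only [hζ]
        rw [PiLp.smul_apply, inj_apply, if_neg (Ne.symm hd), smul_zero, map_zero, map_zero,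
          map_zero, inner_zero_right]
      · simp
    have e3 : ∑ d, ⟪ζ d, opMat X (opMat T (ζ d))⟫_ℂ =
        (t a.1 : ℂ) * ⟪star x ξ, star (T a b) ξ⟫_ℂ := by
      rw [Finset.sum_eq_single a]
      · rw [hXv]
        simp only [hζ]
        rw [inner_smul_left, rnm_inner_inj, inj_apply, if_pos rfl, map_smul, PiLp.smul_apply,
          rnm_entry, map_smul, inner_smul_right, Complex.conj_ofReal, ← mul_assoc,
          ← Complex.ofReal_mul, Real.mul_self_sqrt (ht a.1).le, hsym a b,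
          ContinuousLinearMap.star_eq_adjoint, ContinuousLinearMap.adjoint_inner_left]
      · intro d _ hd
        rw [hXv]
        simp only [hζ]
        rw [inner_smul_left, rnm_inner_inj, inj_apply, if_neg hd, inner_zero_right, mul_zero]
      · simp
    rw [← e1, hval, e2, e3]

end Pool.Agent.H234R3.BP
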